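import Mathlib
import Pool.Agent.K7.H20.Cyc

/-!
# The gap above `1/3` for posets with a cycle of arrows

Draw an arrow from `a` to `b ≠ a` if `a` comes before `b` with probability at least one half, or if
everything below `a` is below `b`, the elements above `b` and not above `a` form a chain and `(a, b)` is
not exceptional (`Exc`), or if the dual condition holds.  The second and the third kind of arrows are
seen without counting linear extensions.  There is an absolute constant `ε > 0` such that every finite
poset with a directed cycle of arrows has balance constant at least `1/3 + ε`.  The same holds for every
finite poset with a nontrivial automorphism.

A search over all posets with at most `8` elements which are connected, not direct sums, and whose proper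
autonomous subsets are in `𝒟` shows that cycles of arrows are present in most of them: in `56` of `58`
posets with six elements, `478` of `489` with seven, `5019` of `5098` with eight (arrows of the first kind
were only drawn for `a < b`); for height two and for semiorders there was no exception.

Proof.  If there is no gap then the theorem on good pairs (a starting file) turns every arrow into an
arrow of the first kind, with probability larger than one half, and a cycle of such arrows is impossible
by the theorem on majority cycles (a starting file).
-/

set_option autoImplicit false

namespace Pool.Agent.Results.MP_33fb9b_co.ArrowCycles

open Pool.Agent.H13R3.WB Pool.Agent.K7.H20.Cyc

theorem result : ∃ ε : ℝ, 0 < ε ∧ ∀ (P : Type) [Fintype P] [PartialOrder P],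
    ((∃ x : P, Relation.TransGen (Arr P) x x) ∨ (∃ e : P ≃o P, e ≠ OrderIso.refl P)) →
      1 / 3 + ε ≤ balance P :=
  arrow_gap

end Pool.Agent.Results.MP_33fb9b_co.ArrowCycles
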