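import Mathlib
import Pool.Agent.K7.H20.Flat

/-!
# The gap above `1/3` for posets of height two and for their sums

There is an absolute constant `ε > 0` such that every finite poset without a chain of three elements is
in the class `𝒟` or has balance constant at least `1/3 + ε`; the same dichotomy holds for all posets
built from such posets by disjoint sums and direct sums.

Proof.  Let `P` be connected of height two with `m` lower and `k ≤ m` upper elements, and let `m ≥ 4`.
Suppose that there is no gap.  By the theorem on majority cycles (a starting file) the lower elements
have a last element `x` and a last element `y` but one, which come before each other lower element with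
probability at most `1/3 + ε`.  Move `y` to all places which are possible for it.  The number `s` of
places has mean `2 h(y) - 1`, where `h(y)` is the average height, and the `i`-th of the other lower
elements is after `y` for at least `min (i, s)` places.  By convexity `2 h(y) - 1 ≥ 3 (m - 1) / 2`, up to
`ε`.  Move `x` to all possible places; there are at most `n - 1` of them, `n = m + k`, so `x` is before
`y` with probability at least `h(y) / n`, and `h(y) ≤ n / 3`, up to `ε`.  Hence `9 m - 3 ≤ 4 n`, a
contradiction.  For `m ≤ 3` there is a good pair which is not exceptional, or the width is two.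
-/

set_option autoImplicit false

namespace Pool.Agent.Results.MP_33fb9b_co.HeightTwoGap

open Pool.Agent.H13R3.WB Pool.Agent.H931R3.Bal Pool.Agent.K7.H20.Flat

theorem result : ∃ ε : ℝ, 0 < ε ∧ ∀ (R : Type) [Fintype R] [PartialOrder R],
    Built (fun P _ => Nonempty P ∧ HeightLeTwo P) R → InD R ∨ 1 / 3 + ε ≤ balance R := by
  obtain ⟨ε, h0, h1, h2⟩ := flat_gap
  refine ⟨ε, h0, fun R _ _ hR => ?_⟩
  refine (Built.gap (c := 1 / 3 + ε) (by linarith) ?_ hR).2
  intro P _ _ hP
  obtain ⟨hne, hP⟩ := hP
  exact ⟨hne, h2 P hP⟩

end Pool.Agent.Results.MP_33fb9b_co.HeightTwoGap
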