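import Mathlib
import Pool.Agent.K7.H20.Low

/-!
# The gap above `1/3` for posets with many elements which have the same lower elements

Let `A` be a set of `m` elements of a finite poset which have the same lower elements (for example all
minimal elements), or which have the same upper elements, and let each element of `A` be incomparable to
at most `K` elements.  If `9 m ≥ 4 K + 12` then the balance constant is at least `1/3 + ε`, with an
absolute constant `ε > 0`.  So the elements of `A` need only be about four ninths of the elements which
are incomparable to an element of `A`; the lower bound on `m` does not depend on the other elements of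
the poset, which can have any number, width and height.

Proof.  Suppose that there is no gap.  By the theorem on majority cycles (a starting file) there are a
last element `x` and a last element `y` but one of `A`.  Move `y` to all places which are possible for
it; by convexity the average number of these places is at least `3 (m - 1) / 2`, up to `ε`, because the
other elements of `A` are before `y` with probability at least `2/3 - ε`.  So the average place of `y`
after the common lower elements is large.  Moving `x` to its places, at most `K + 1` of them, shows that
the average place of `y` is at most `(K + 2) / 3`, up to `ε`.
-/

set_option autoImplicit false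

namespace Pool.Agent.Results.MP_33fb9b_co.SameLowerElements

open Pool.Agent.H13R3.WB

theorem result : ∃ ε : ℝ, 0 < ε ∧ ∀ (P : Type) [Fintype P] [PartialOrder P] (A : Finset P) (K : ℕ),
    ((∀ a ∈ A, ∀ b ∈ A, ∀ w, w < a ↔ w < b) ∨ (∀ a ∈ A, ∀ b ∈ A, ∀ w, a < w ↔ b < w)) →
    (∀ a ∈ A, Nat.card {w : P // ¬ a ≤ w ∧ ¬ w ≤ a} ≤ K) → 4 * K + 12 ≤ 9 * A.card →
    1 / 3 + ε ≤ balance P :=
  Pool.Agent.K7.H20.Slot.same_gap

end Pool.Agent.Results.MP_33fb9b_co.SameLowerElements
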