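import Mathlib
import Pool.Agent.K7.H20.Semi2

/-!
# The gap above `1/3` for semiorders and for sums of semiorders

A semiorder (unit interval order) is a poset without induced `2 + 2` and `3 + 1`.  There is an absolute
constant `ε > 0` such that every finite semiorder is in the class `𝒟` or has balance constant at least
`1/3 + ε`; the same dichotomy holds for all posets built from semiorders by disjoint sums and direct
sums.

Proof.  In a semiorder the pairs (lower elements, upper elements) are linearly preordered.  If a
semiorder with `n ≥ 2` elements is not a direct sum, then no element is comparable to all others on one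
side, so the numbers `|lower elements| - |upper elements|` lie between `-(n - 2)` and `n - 2`, and two
different elements `x`, `y` have numbers which differ by at most one.  By the total preorder `x` and `y`
have the same lower and upper elements, up to one element `z`.  So `x`, `y` is a good pair, and the
theorem on good pairs (a starting file) gives the gap unless `{x, y, z}` is autonomous; in this case
every other element is comparable with `x`, `y`, `z` in the same way, because the preorder is total, so
that the semiorder is a direct sum or has three elements.
-/

set_option autoImplicit false

namespace Pool.Agent.Results.MP_33fb9b_co.SemiorderGap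

open Pool.Agent.H13R3.WB Pool.Agent.H931R3.Bal Pool.Agent.K7.H20.Semi

theorem result : ∃ ε : ℝ, 0 < ε ∧ ∀ (R : Type) [Fintype R] [PartialOrder R],
    Built (fun P _ => Nonempty P ∧ Semiorder P) R → InD R ∨ 1 / 3 + ε ≤ balance R := by
  obtain ⟨ε, h0, h1, h2⟩ := semi_gap
  refine ⟨ε, h0, fun R _ _ hR => ?_⟩
  refine (Built.gap (c := 1 / 3 + ε) (by linarith) ?_ hR).2
  intro P _ _ hP
  obtain ⟨hne, hP⟩ := hP
  exact ⟨hne, h2 P hP⟩

end Pool.Agent.Results.MP_33fb9b_co.SemiorderGap
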